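import Mathlib
import Pool.Agent.H.MP_ea326e_an.A

namespace Pool.Agent.Results.MP_ea326e_an.Growth

open Complex Metric Set

/-- The Caratheodory family on the unit ball of `ℂ^n`. -/
def M (n : ℕ) : Set (EuclideanSpace ℂ (Fin n) → EuclideanSpace ℂ (Fin n)) :=
  {h | DifferentiableOn ℂ h (ball 0 1) ∧ h 0 = 0 ∧ fderiv ℂ h 0 = ContinuousLinearMap.id ℂ _ ∧
    ∀ z ∈ ball (0 : EuclideanSpace ℂ (Fin n)) 1, z ≠ 0 → 0 < (inner ℂ z (h z)).re}

/-- Pole parameter of the extremal map. -/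
noncomputable def d (x : ℝ) : ℝ := Real.sqrt (1 - 3 * x ^ 2) / (1 - x ^ 2)

/-- Shear parameter of the extremal map. -/
noncomputable def c (x : ℝ) : ℝ := 2 * x / (1 - x ^ 2) ^ 2

/-- Norm of `z (1 + d z₂) / (1 - d z₂) + c z₂ ^ 2 / (1 - d z₂) ^ 2 e₁` at `z = (√(r² - s²), s)`. -/
noncomputable def g (r x s : ℝ) : ℝ :=
  Real.sqrt ((Real.sqrt (r ^ 2 - s ^ 2) * ((1 + d x * s) / (1 - d x * s)) +
    c x * s ^ 2 / (1 - d x * s) ^ 2) ^ 2 + (s * ((1 + d x * s) / (1 - d x * s))) ^ 2)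

/-- The maximum of `g r x s` over `0 ≤ x ≤ 1/√3`, `0 ≤ s ≤ r`. -/
noncomputable def m (r : ℝ) : ℝ :=
  sSup {y | ∃ x ∈ Icc 0 (1 / Real.sqrt 3), ∃ s ∈ Icc 0 r, y = g r x s}

open Pool.Agent.H.MP_ea326e_an
open scoped ComplexConjugate

theorem result (n : ℕ) (hn : 2 ≤ n) (r : ℝ) (r0 : 0 < r) (r1 : r < 1) :
    IsGreatest {y : ℝ | ∃ h ∈ M n, ∃ z : EuclideanSpace ℂ (Fin n), ‖z‖ = r ∧ y = ‖h z‖} (m r) := by
  obtain ⟨n, rfl⟩ := Nat.exists_eq_add_of_le' hn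
  have hx : ∀ x ∈ Icc 0 (1 / Real.sqrt 3), 0 < 1 - x ^ 2 ∧ 0 ≤ d x ∧ d x ≤ 1 ∧
      d x ^ 2 = (1 - 3 * x ^ 2) / (1 - x ^ 2) ^ 2 := fun x hx => by
    have := pow_le_pow_left₀ hx.1 hx.2 2
    rw [div_pow, Real.sq_sqrt (by norm_num)] at this
    have e : 0 < 1 - x ^ 2 := by linarith
    refine ⟨e, by rw [d]; positivity, (div_le_one e).2 (Real.sqrt_le_iff.2 ⟨e.le, by nlinarith⟩), ?_⟩
    rw [d, div_pow, Real.sq_sqrt (by linarith)]
  have hs : ∀ p ∈ Icc 0 (1 / Real.sqrt 3) ×ˢ Icc 0 r, 0 < 1 - d p.1 * p.2 := fun p hp => by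
    have := hx _ hp.1
    nlinarith [hp.2.1, hp.2.2]
  have cd : ContinuousOn (fun p : ℝ × ℝ => d p.1) (Icc 0 (1 / Real.sqrt 3) ×ˢ Icc 0 r) :=
    ContinuousOn.div (by fun_prop) (by fun_prop) fun p hp => (hx _ hp.1).1.ne'
  have cc : ContinuousOn (fun p : ℝ × ℝ => c p.1) (Icc 0 (1 / Real.sqrt 3) ×ˢ Icc 0 r) :=
    ContinuousOn.div (by fun_prop) (by fun_prop) fun p hp => pow_ne_zero _ (hx _ hp.1).1.ne'
  have ck : ContinuousOn (fun p : ℝ × ℝ => (1 + d p.1 * p.2) / (1 - d p.1 * p.2))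
      (Icc 0 (1 / Real.sqrt 3) ×ˢ Icc 0 r) :=
    ContinuousOn.div (by fun_prop) (by fun_prop) fun p hp => (hs p hp).ne'
  have cl : ContinuousOn (fun p : ℝ × ℝ => c p.1 * p.2 ^ 2 / (1 - d p.1 * p.2) ^ 2)
      (Icc 0 (1 / Real.sqrt 3) ×ˢ Icc 0 r) :=
    ContinuousOn.div (by fun_prop) (by fun_prop) fun p hp => pow_ne_zero _ (hs p hp).ne'
  obtain ⟨⟨x, s⟩, hp, mx⟩ := (isCompact_Icc.prod isCompact_Icc).exists_isMaxOn
    (f := fun p : ℝ × ℝ => g r p.1 p.2) ⟨(0, 0), ⟨le_rfl, by positivity⟩, le_rfl, r0.le⟩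
    (ContinuousOn.sqrt ((((ContinuousOn.mul (by fun_prop) ck).add cl).pow 2).add
      ((continuousOn_snd.mul ck).pow 2)))
  rw [show m r = g r x s from IsGreatest.csSup_eq ⟨⟨x, hp.1, s, hp.2, rfl⟩,
    fun _ ⟨x', h1, s', h2, e⟩ => e ▸ mx (a := (x', s')) ⟨h1, h2⟩⟩]
  constructor
  · obtain ⟨x1, d0, d1, d2⟩ := hx x hp.1
    have c0 : 0 ≤ c x := by have := hp.1.1; rw [c]; positivity
    have n1 : ∀ z ∈ ball (0 : EuclideanSpace ℂ (Fin (n + 2))) 1, 1 - d x * z 1 ≠ 0 := fun z hz =>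
      H.MP_1f2de8_an.ne1 (by
        simpa [abs_of_nonneg d0] using mul_lt_one_of_nonneg_of_lt_one_right d1 (norm_nonneg _)
          ((PiLp.norm_apply_le z 1).trans_lt (mem_ball_zero_iff.1 hz)))
    have nm : ∀ a b : ℝ, ‖(EuclideanSpace.single 0 (a : ℂ) + EuclideanSpace.single 1 (b : ℂ) :
        EuclideanSpace ℂ (Fin (n + 2)))‖ = Real.sqrt (a ^ 2 + b ^ 2) := fun a b => by
      simp [EuclideanSpace.norm_eq, Fin.sum_univ_succ, Fin.succ_succ_ne_one]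
    have sr : 0 ≤ r ^ 2 - s ^ 2 := sub_nonneg.2 (pow_le_pow_left₀ hp.2.1 hp.2.2 2)
    refine ⟨fun z => ((1 + d x * z 1) / (1 - d x * z 1) : ℂ) • z +
      (c x * z 1 ^ 2 / (1 - d x * z 1) ^ 2 : ℂ) • EuclideanSpace.single 0 1, ⟨?_, by simp, ?_,
      fun z hz z0 => ?_⟩, EuclideanSpace.single 0 (Real.sqrt (r ^ 2 - s ^ 2) : ℂ) +
        EuclideanSpace.single 1 (s : ℂ), ?_, ?_⟩
    · have i1 := DifferentiableOn.fun_inv (𝕜 := ℂ) (by fun_prop) n1
      simp only [div_eq_mul_inv, ← inv_pow]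
      fun_prop
    · have p := (EuclideanSpace.proj (𝕜 := ℂ) (1 : Fin (n + 2))).hasFDerivAt (x := 0)
      have q := ((hasDerivAt_id' (0 : ℂ)).const_mul (d x : ℂ)).const_sub 1
      have := (((((((hasDerivAt_id' (0 : ℂ)).const_mul (d x : ℂ)).const_add 1).fun_div q
        (by simp)).comp_hasFDerivAt_of_eq _ p (by simp)).smul (hasFDerivAt_id 0)).add
        ((((((hasDerivAt_id' (0 : ℂ)).fun_pow 2).const_mul (c x : ℂ)).fun_div (q.fun_pow 2)
          (by simp)).comp_hasFDerivAt_of_eq _ p (by simp)).smul_const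
        (EuclideanSpace.single (0 : Fin (n + 2)) (1 : ℂ)))).fderiv
      exact this.trans (by ext; simp)
    · have q := n1 z hz
      rw [mem_ball_zero_iff] at hz
      have R0 := norm_pos_iff.2 z0
      have ns : ‖z 0‖ ^ 2 + ‖z 1‖ ^ 2 ≤ ‖z‖ ^ 2 := by
        rw [EuclideanSpace.norm_sq_eq, Fin.sum_univ_succ, Fin.sum_univ_succ, ← add_assoc]
        exact le_add_of_nonneg_right (Finset.sum_nonneg fun _ _ => sq_nonneg _)
      have l5 := (abs_le.1 (abs_re_le_norm (c x * z 1 ^ 2 / (1 - d x * z 1) ^ 2 * conj (z 0)))).1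
      rw [norm_mul, norm_div, norm_mul, norm_pow, norm_pow, norm_conj, norm_real,
        Real.norm_of_nonneg c0] at l5
      have l1 : ((1 + d x * z 1) / (1 - d x * z 1)).re =
          (1 - d x ^ 2 * ‖z 1‖ ^ 2) / ‖1 - d x * z 1‖ ^ 2 := by
        rw [div_re, ← add_div, normSq_eq_norm_sq, ← normSq_eq_norm_sq (z 1), normSq_apply]
        congr 1; simp; ring
      have l2 : c x * ‖z 1‖ ^ 2 * ‖z 0‖ < (1 - d x ^ 2 * ‖z 1‖ ^ 2) * ‖z‖ ^ 2 := by
        have a0 := norm_nonneg (z 0)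
        generalize ‖z 0‖ = A at *
        generalize ‖z‖ = R at *
        obtain ⟨X, rfl⟩ : ∃ X, A = X * R := ⟨A / R, by field_simp⟩
        have X0 : 0 ≤ X := nonneg_of_mul_nonneg_left a0 R0
        have k : (1 - X ^ 2) * (d x ^ 2 + c x * X) ≤ 1 := by
          rw [d2, c, ← sub_nonneg, show 1 - (1 - X ^ 2) * ((1 - 3 * x ^ 2) / (1 - x ^ 2) ^ 2 +
            2 * x / (1 - x ^ 2) ^ 2 * X) = (X - x) ^ 2 * (2 * x * X + 1 + x ^ 2) / (1 - x ^ 2) ^ 2 by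
              field_simp; ring]
          have := hp.1.1
          positivity
        have k1 : ‖z 1‖ ^ 2 * (d x ^ 2 * R + c x * X) ≤ R ^ 2 * (1 - X ^ 2) * (d x ^ 2 + c x * X) :=
          mul_le_mul (by linarith) (by nlinarith [sq_nonneg (d x)]) (by positivity)
            (by nlinarith [sq_nonneg ‖z 1‖])
        have k2 := mul_le_mul_of_nonneg_left k (sq_nonneg R)
        have k3 := mul_le_mul_of_nonneg_left (k1.trans (le_of_eq_of_le (by ring) k2)) R0.le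
        nlinarith [mul_pos (pow_pos R0 2) (sub_pos.2 hz)]
      have l3 := div_lt_div_of_pos_right l2 (pow_pos (norm_pos_iff.2 q) 2)
      simp only [inner_add_right, inner_smul_right, EuclideanSpace.inner_single_right, one_mul,
        inner_self_eq_norm_sq_to_K, add_re, coe_algebraMap, ← ofReal_pow, re_mul_ofReal, l1]
      rw [mul_div_right_comm, mul_div_right_comm (1 - _)] at l3
      exact neg_lt_iff_pos_add'.1 (neg_lt.1 ((neg_le.1 l5).trans_lt l3))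
    · rw [nm, Real.sq_sqrt sr, sub_add_cancel, Real.sqrt_sq r0.le]
    · rw [g, ← nm]
      congr 1
      ext i
      rcases eq_or_ne i 0 with rfl | i0
      · simp; ring
      · rcases eq_or_ne i 1 with rfl | i1 <;> simp [*]; ring
  · rintro _ ⟨h, ⟨hd, h0, hD, hq⟩, z, hz, rfl⟩
    rcases eq_or_ne (h z) 0 with e | e
    · rw [e, norm_zero]; exact Real.sqrt_nonneg _
    have w0 := norm_pos_iff.2 e
    have r' : (r : ℂ) ≠ 0 := by exact_mod_cast r0.ne'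
    have hu : ‖(r : ℂ)⁻¹ • z‖ = 1 := by simp [norm_smul, hz, abs_of_pos r0, r0.ne']
    have hv : ‖(‖h z‖ : ℂ)⁻¹ • h z‖ = 1 := by simp [norm_smul, w0.ne']
    obtain ⟨x', h1, s', h2, e⟩ := alg r0 r1 (norm_nonneg _)
      ((norm_inner_le_norm (𝕜 := ℂ) _ _).trans_eq (by rw [hu, hv, mul_one]))
      fun t M N => disc' hd h0 hD (fun z hz => by
        rcases eq_or_ne z 0 with rfl | z0
        · simp
        · exact (hq z hz z0).le) hu hv r0
    refine le_trans (le_of_eq ?_) ((e _ _ rfl rfl).trans (mx (a := (x', s')) ⟨h1, h2⟩))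
    rw [smul_inv_smul₀ r', inner_smul_left, inner_self_eq_norm_sq_to_K]
    simp [← ofReal_inv, ← ofReal_pow]; field_simp

end Pool.Agent.Results.MP_ea326e_an.Growth
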